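import Pool.Agent.H664.EX.Stm

/-!
Project EX (helper664), job BM: the theorem of Brownawell and Masser, with further algebraic functions.
-/

set_option autoImplicit false

namespace Pool.Agent.H860.EX

open MvPolynomial Filter Topology Metric Pool.Agent.W996.EC Pool.Agent.Q72.EG Pool.Agent.H664.FH
open Pool.Agent.H664.EX

variable {m : ℕ}

/-- polynomials are polynomially bounded -/
theorem polyBd (g : MvPolynomial (Fin m) ℂ) : ∃ (C : ℝ) (n : ℕ), 0 ≤ C ∧
    ∀ x : Fin m → ℂ, ‖eval x g‖ ≤ C * (1 + ‖x‖) ^ n := by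
  induction g using MvPolynomial.induction_on with
  | C c => exact ⟨‖c‖, 0, norm_nonneg _, fun x => by simp⟩
  | add p q hp hq =>
    obtain ⟨C1, n1, h1, H1⟩ := hp
    obtain ⟨C2, n2, h2, H2⟩ := hq
    refine ⟨C1 + C2, n1 + n2, by positivity, fun x => ?_⟩
    have e1 : (1 : ℝ) ≤ 1 + ‖x‖ := by linarith [norm_nonneg x]
    have e2 : (1 + ‖x‖) ^ n1 ≤ (1 + ‖x‖) ^ (n1 + n2) := pow_le_pow_right₀ e1 (by omega)
    have e3 : (1 + ‖x‖) ^ n2 ≤ (1 + ‖x‖) ^ (n1 + n2) := pow_le_pow_right₀ e1 (by omega)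
    rw [map_add]
    calc ‖eval x p + eval x q‖ ≤ ‖eval x p‖ + ‖eval x q‖ := norm_add_le _ _
      _ ≤ C1 * (1 + ‖x‖) ^ n1 + C2 * (1 + ‖x‖) ^ n2 := add_le_add (H1 x) (H2 x)
      _ ≤ C1 * (1 + ‖x‖) ^ (n1 + n2) + C2 * (1 + ‖x‖) ^ (n1 + n2) :=
        add_le_add (mul_le_mul_of_nonneg_left e2 h1) (mul_le_mul_of_nonneg_left e3 h2)
      _ = _ := by ring
  | mul_X p i hp =>
    obtain ⟨C1, n1, h1, H1⟩ := hp
    refine ⟨C1, n1 + 1, h1, fun x => ?_⟩
    have e1 : ‖x i‖ ≤ 1 + ‖x‖ := by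
      have := norm_le_pi_norm x i
      linarith
    rw [map_mul, eval_X, norm_mul, pow_succ, ← mul_assoc]
    exact mul_le_mul (H1 x) e1 (norm_nonneg _) (by positivity)

/-- growth along a direction -/
theorem growth (G : MvPolynomial (Fin m) ℂ) (hG : G ≠ 0) :
    ∃ (ω : Fin m → ℤ) (ε T₀ c : ℝ), 0 < ε ∧ 1 ≤ T₀ ∧ 0 < c ∧ ∀ T : ℝ, T₀ ≤ T →
      ∀ x ∈ ball (fun l => 2 * Real.pi * Complex.I * ((T : ℂ) * (ω l : ℂ)) : Fin m → ℂ) (ε * T),
        c ≤ ‖eval x G‖ := by
  classical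
  set d := G.totalDegree with hd
  have htop : homogeneousComponent d G ≠ 0 := by
    intro h0
    obtain ⟨s, hs, hs'⟩ := Finset.exists_mem_eq_sup G.support
      (Finset.nonempty_iff_ne_empty.2 fun h => hG (support_eq_empty.1 h))
      (fun s => s.sum fun _ e => e)
    have h2 : coeff s (homogeneousComponent d G) = coeff s G := by
      rw [coeff_homogeneousComponent, if_pos]
      rw [hd, totalDegree, hs']
      exact Finsupp.degree_eq_sum _ |>.trans (by rw [Finsupp.sum_fintype]; intro i; rfl)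
    rw [h0, coeff_zero] at h2
    exact (mem_support_iff.1 hs) h2.symm
  obtain ⟨ω, hω⟩ : ∃ ω : Fin m → ℤ, eval (fun l => 2 * Real.pi * Complex.I * (ω l : ℂ))
      (homogeneousComponent d G) ≠ 0 := by
    by_contra hcon
    push Not at hcon
    apply htop
    refine funext_set (fun _ => Set.range fun n : ℤ => 2 * Real.pi * Complex.I * (n : ℂ))
      (fun _ => Set.infinite_range_of_injective ?_) ?_
    · intro a b hab
      have h2 : (2 * Real.pi * Complex.I : ℂ) ≠ 0 := Complex.two_pi_I_ne_zero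
      exact_mod_cast mul_left_cancel₀ h2 hab
    · intro x hx
      choose w hw using fun i => hx i (Set.mem_univ i)
      have : x = fun l => 2 * Real.pi * Complex.I * (w l : ℂ) := funext fun l => (hw l).symm
      rw [this, hcon, map_zero]
  set v₀ : Fin m → ℂ := fun l => 2 * Real.pi * Complex.I * (ω l : ℂ) with hv₀
  -- the rescaled polynomial
  set φ : ℝ × (Fin m → ℂ) → ℂ := fun p =>
    ∑ j ∈ Finset.range (d + 1), (p.1 : ℂ) ^ (d - j) * eval p.2 (homogeneousComponent j G) with hφ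
  have hφc : Continuous φ := by
    refine continuous_finsetSum _ fun j _ => ?_
    refine ((Complex.continuous_ofReal.comp continuous_fst).pow _).mul ?_
    exact (MvPolynomial.continuous_eval _).comp continuous_snd
  have hφ0 : φ (0, v₀) ≠ 0 := by
    have : φ (0, v₀) = eval v₀ (homogeneousComponent d G) := by
      simp only [hφ]
      rw [Finset.sum_range_succ, Finset.sum_eq_zero, zero_add, Nat.sub_self, pow_zero, one_mul]
      intro j hj
      have := Finset.mem_range.1 hj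
      rw [Complex.ofReal_zero, zero_pow (by omega), zero_mul]
    rw [this]
    exact hω
  set c : ℝ := ‖φ (0, v₀)‖ / 2 with hc
  have hc0 : 0 < c := by
    have := norm_pos_iff.2 hφ0
    positivity
  have hev : ∀ᶠ p in 𝓝 ((0 : ℝ), v₀), c < ‖φ p‖ := by
    have h1 : c < ‖φ (0, v₀)‖ := by
      rw [hc]
      linarith
    exact (hφc.norm.tendsto _).eventually (lt_mem_nhds h1)
  obtain ⟨ε, hε, hball⟩ := Metric.eventually_nhds_iff.1 hev
  refine ⟨ω, ε, 1 + 1 / ε, c, hε, by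
    have : 0 < 1 / ε := by positivity
    linarith, hc0, ?_⟩
  intro T hT x hx
  have hε' : 0 < 1 / ε := by positivity
  have hT1 : 1 ≤ T := by linarith
  have hT0 : 0 < T := by linarith
  set v : Fin m → ℂ := fun l => (T : ℂ)⁻¹ * x l with hv
  have hTC : (T : ℂ) ≠ 0 := by exact_mod_cast hT0.ne'
  have hxv : x = fun l => (T : ℂ) * v l := by
    funext l
    simp only [hv]
    rw [mul_inv_cancel_left₀ hTC]
  have hGx : eval x G = (T : ℂ) ^ d * φ (T⁻¹, v) := by
    have h1 : eval x G = ∑ j ∈ Finset.range (d + 1), eval x (homogeneousComponent j G) := by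
      conv_lhs => rw [← sum_homogeneousComponent G]
      rw [map_sum]
    rw [h1]
    simp only [hφ]
    rw [Finset.mul_sum]
    refine Finset.sum_congr rfl fun j hj => ?_
    have hjd : j ≤ d := Nat.lt_succ_iff.1 (Finset.mem_range.1 hj)
    have h2 : eval x (homogeneousComponent j G) =
        (T : ℂ) ^ j * eval v (homogeneousComponent j G) := by
      have h3 := (homogeneousComponent_isHomogeneous j G)
      rw [hxv]
      rw [eval_eq, eval_eq, Finset.mul_sum]
      refine Finset.sum_congr rfl fun s hs => ?_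
      have h4 : ∑ i ∈ s.support, s i = j := by
        have h5 := h3 (mem_support_iff.1 hs)
        rw [Finsupp.weight_apply] at h5
        simpa [Finsupp.sum] using h5
      have h6 : ∏ i ∈ s.support, ((T : ℂ) * v i) ^ s i =
          (T : ℂ) ^ j * ∏ i ∈ s.support, v i ^ s i := by
        rw [← h4, ← Finset.prod_pow_eq_pow_sum, ← Finset.prod_mul_distrib]
        exact Finset.prod_congr rfl fun i _ => mul_pow _ _ _
      rw [h6]
      ring
    rw [h2, ← mul_assoc]
    congr 1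
    rw [Complex.ofReal_inv, inv_pow]
    have h7 : (T : ℂ) ^ d = (T : ℂ) ^ j * (T : ℂ) ^ (d - j) := by
      rw [← pow_add]
      congr 1
      omega
    rw [h7, mul_assoc, mul_inv_cancel₀ (pow_ne_zero _ hTC), mul_one]
  have hdist : dist ((T⁻¹ : ℝ), v) ((0 : ℝ), v₀) < ε := by
    rw [Prod.dist_eq, max_lt_iff]
    constructor
    · change dist T⁻¹ 0 < ε
      rw [Real.dist_eq, sub_zero, abs_of_pos (inv_pos.2 hT0)]
      rw [inv_lt_comm₀ hT0 hε, ← one_div]
      linarith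
    · change dist v v₀ < ε
      rw [mem_ball, dist_eq_norm] at hx
      rw [dist_eq_norm]
      have h1 : v - v₀ = (T : ℂ)⁻¹ • (x - fun l =>
          2 * Real.pi * Complex.I * ((T : ℂ) * (ω l : ℂ))) := by
        funext l
        simp only [hv, hv₀, Pi.sub_apply, Pi.smul_apply, smul_eq_mul]
        field_simp
      rw [h1, norm_smul, norm_inv, Complex.norm_real, Real.norm_of_nonneg hT0.le]
      rw [inv_mul_lt_iff₀ hT0, mul_comm T ε]
      exact hx
  have h8 := hball hdist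
  rw [hGx, norm_mul, norm_pow, Complex.norm_real, Real.norm_of_nonneg hT0.le]
  have h9 : 1 ≤ T ^ d := one_le_pow₀ hT1
  calc c ≤ ‖φ (T⁻¹, v)‖ := h8.le
    _ = 1 * ‖φ (T⁻¹, v)‖ := (one_mul _).symm
    _ ≤ T ^ d * ‖φ (T⁻¹, v)‖ := mul_le_mul_of_nonneg_right h9 (norm_nonneg _)

/-- bound for roots -/
theorem ubd (N : ℕ) (a : ℕ → ℂ) (w : ℂ) (M δ : ℝ) (hδ : 0 < δ) (hM : 0 ≤ M)
    (ha : ∀ b, ‖a b‖ ≤ M) (hN : δ ≤ ‖a N‖)
    (h0 : ∑ b ∈ Finset.range (N + 1), a b * w ^ b = 0) : ‖w‖ ≤ 1 + N * M / δ := by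
  by_cases h1 : ‖w‖ ≤ 1
  · have : 0 ≤ N * M / δ := by positivity
    linarith
  push Not at h1
  rcases N with _ | n
  · exfalso
    rw [Finset.sum_range_succ, Finset.sum_range_zero, zero_add, pow_zero, mul_one] at h0
    rw [h0, norm_zero] at hN
    linarith
  · rw [Finset.sum_range_succ] at h0
    have h2 : a (n + 1) * w ^ (n + 1) = -∑ b ∈ Finset.range (n + 1), a b * w ^ b := by
      linear_combination h0
    have h3 : ‖a (n + 1) * w ^ (n + 1)‖ ≤ (n + 1) * M * ‖w‖ ^ n := by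
      rw [h2, norm_neg]
      calc ‖∑ b ∈ Finset.range (n + 1), a b * w ^ b‖
          ≤ ∑ b ∈ Finset.range (n + 1), ‖a b * w ^ b‖ := norm_sum_le _ _
        _ ≤ ∑ b ∈ Finset.range (n + 1), M * ‖w‖ ^ n := by
            refine Finset.sum_le_sum fun b hb => ?_
            rw [norm_mul, norm_pow]
            have hb' : b ≤ n := Nat.lt_succ_iff.1 (Finset.mem_range.1 hb)
            exact mul_le_mul (ha b) (pow_le_pow_right₀ h1.le hb') (by positivity) hM
        _ = (n + 1) * M * ‖w‖ ^ n := by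
            rw [Finset.sum_const, Finset.card_range, nsmul_eq_mul]
            push_cast
            ring
    rw [norm_mul, norm_pow, pow_succ] at h3
    have hw : 0 < ‖w‖ ^ n := by positivity
    have h4 : δ * ‖w‖ * ‖w‖ ^ n ≤ (n + 1) * M * ‖w‖ ^ n := by
      refine le_trans ?_ h3
      have : δ * (‖w‖ ^ n * ‖w‖) ≤ ‖a (n + 1)‖ * (‖w‖ ^ n * ‖w‖) :=
        mul_le_mul_of_nonneg_right hN (by positivity)
      calc δ * ‖w‖ * ‖w‖ ^ n = δ * (‖w‖ ^ n * ‖w‖) := by ring
        _ ≤ _ := this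
    have h5 : δ * ‖w‖ ≤ (n + 1) * M := le_of_mul_le_mul_right h4 hw
    have h6 : ‖w‖ ≤ ((n : ℝ) + 1) * M / δ := by
      rw [le_div_iff₀ hδ, mul_comm]
      exact h5
    push_cast
    linarith

theorem bds (N : ℕ) (a : ℕ → ℂ) (w : ℂ) (M δ : ℝ) (hδ : 0 < δ) (hM : 0 ≤ M)
    (ha : ∀ b, ‖a b‖ ≤ M) (hN : δ ≤ ‖a N‖) (h00 : δ ≤ ‖a 0‖)
    (h0 : ∑ b ∈ Finset.range (N + 1), a b * w ^ b = 0) :
    w ≠ 0 ∧ |Real.log ‖w‖| ≤ Real.log (1 + N * M / δ) := by
  have hw : w ≠ 0 := by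
    rintro rfl
    rw [Finset.sum_eq_single 0] at h0
    · rw [pow_zero, mul_one] at h0
      rw [h0, norm_zero] at h00
      linarith
    · intro b _ hb
      rw [zero_pow hb, mul_zero]
    · intro h
      exact absurd (Finset.mem_range.2 (Nat.succ_pos N)) h
  have hw0 : 0 < ‖w‖ := norm_pos_iff.2 hw
  have h1 := ubd N a w M δ hδ hM ha hN h0
  have h2 : ‖w⁻¹‖ ≤ 1 + N * M / δ := by
    refine ubd N (fun b => a (N - b)) w⁻¹ M δ hδ hM (fun b => ha _) ?_ ?_
    · simp only [Nat.sub_self]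
      exact h00
    · have h3 : w ^ N * ∑ b ∈ Finset.range (N + 1), a (N - b) * w⁻¹ ^ b =
          ∑ b ∈ Finset.range (N + 1), a b * w ^ b := by
        rw [← Finset.sum_range_reflect (fun b => a b * w ^ b) (N + 1), Finset.mul_sum]
        refine Finset.sum_congr rfl fun b hb => ?_
        have hb' : b ≤ N := Nat.lt_succ_iff.1 (Finset.mem_range.1 hb)
        have h4 : w ^ N = w ^ (N - b) * w ^ b := by
          rw [← pow_add]
          congr 1
          omega
        have h5 : N + 1 - 1 - b = N - b := by omega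
        rw [h5, h4, inv_pow]
        field_simp
      rw [h0] at h3
      exact (mul_eq_zero.1 h3).resolve_left (pow_ne_zero _ hw)
  refine ⟨hw, abs_le.2 ⟨?_, Real.log_le_log hw0 h1⟩⟩
  rw [norm_inv] at h2
  have h3 := Real.log_le_log (inv_pos.2 hw0) h2
  rw [Real.log_inv] at h3
  linarith

/-- growth of an algebraic function -/
theorem growAlg {K : Type} [Field K] [Algebra ℂ K] (ζ : Fin m → K) {κ : Type} (f : κ → K)
    (i : κ) (hζ : AlgebraicIndependent ℂ ζ) (hi : Al (Set.range ζ) (f i)) (hi0 : f i ≠ 0) :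
    ∃ g : MvPolynomial (Fin m) ℂ, g ≠ 0 ∧ ∀ G : MvPolynomial (Fin m) ℂ, g ∣ G → ∀ c : ℝ, 0 < c →
      ∃ (D : ℝ) (k : ℕ), 1 ≤ D ∧ ∀ (x : Fin m → ℂ) (w : κ → ℂ),
        Sum.elim x w ∈ Pt (Sum.elim ζ f) → c ≤ ‖eval x G‖ →
        w i ≠ 0 ∧ |Real.log ‖w i‖| ≤ Real.log (D * (1 + ‖x‖) ^ k) := by
  classical
  obtain ⟨A₀, ⟨b₀, hb₀⟩, hA₀⟩ := Pool.Agent.Q206.EG.alg_poly ζ (f i) hi
  -- divide by a power of the variable
  have hne : A₀ ≠ 0 := by
    rintro rfl
    rw [Polynomial.coeff_zero, map_zero] at hb₀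
    exact hb₀ rfl
  obtain ⟨A, hA⟩ : Polynomial.X ^ A₀.natTrailingDegree ∣ A₀ := by
    rw [Polynomial.X_pow_dvd_iff]
    intro d hd
    exact Polynomial.coeff_eq_zero_of_lt_natTrailingDegree hd
  have hA0 : A.coeff 0 ≠ 0 := by
    have h1 := congrArg (fun p => Polynomial.coeff p A₀.natTrailingDegree) hA
    rw [Polynomial.coeff_X_pow_mul', if_pos le_rfl, Nat.sub_self] at h1
    rw [← h1]
    exact Polynomial.trailingCoeff_nonzero_iff_nonzero.2 hne
  have hAf : (A.map (aeval ζ : MvPolynomial (Fin m) ℂ →ₐ[ℂ] K).toRingHom).eval (f i) = 0 := by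
    rw [hA, Polynomial.map_mul, Polynomial.map_pow, Polynomial.map_X, Polynomial.eval_mul,
      Polynomial.eval_pow, Polynomial.eval_X] at hA₀
    exact (mul_eq_zero.1 hA₀).resolve_left (pow_ne_zero _ hi0)
  have hAne : A ≠ 0 := by
    rintro rfl
    exact hA0 (Polynomial.coeff_zero 0)
  set N := A.natDegree with hN
  refine ⟨A.coeff 0 * A.coeff N, mul_ne_zero hA0 ?_, ?_⟩
  · exact Polynomial.leadingCoeff_ne_zero.2 hAne
  intro G hG c hc
  obtain ⟨G1, hG1⟩ := (dvd_mul_right (A.coeff 0) (A.coeff N)).trans hG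
  obtain ⟨G2, hG2⟩ := (dvd_mul_left (A.coeff N) (A.coeff 0)).trans hG
  obtain ⟨C1, n1, hC1, H1⟩ := polyBd G1
  obtain ⟨C2, n2, hC2, H2⟩ := polyBd G2
  choose C3 n3 hC3 H3 using fun b => polyBd (A.coeff b)
  set C4 : ℝ := ∑ b ∈ Finset.range (N + 1), C3 b with hC4
  set n4 : ℕ := ∑ b ∈ Finset.range (N + 1), n3 b with hn4
  have hC4' : 0 ≤ C4 := Finset.sum_nonneg fun b _ => hC3 b
  have H4 : ∀ (b : ℕ) (x : Fin m → ℂ), ‖eval x (A.coeff b)‖ ≤ C4 * (1 + ‖x‖) ^ n4 := by
    intro b x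
    have e1 : (1 : ℝ) ≤ 1 + ‖x‖ := by linarith [norm_nonneg x]
    by_cases hb : b ∈ Finset.range (N + 1)
    · refine (H3 b x).trans ?_
      have e2 : C3 b ≤ C4 := Finset.single_le_sum (fun b _ => hC3 b) hb
      have e3 : n3 b ≤ n4 := Finset.single_le_sum (fun b _ => Nat.zero_le _) hb
      exact mul_le_mul e2 (pow_le_pow_right₀ e1 e3) (by positivity) hC4'
    · rw [Finset.mem_range] at hb
      rw [Polynomial.coeff_eq_zero_of_natDegree_lt (by omega), map_zero, norm_zero]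
      positivity
  set C5 : ℝ := 1 + C1 + C2 with hC5
  have hC5' : 1 ≤ C5 := by linarith
  refine ⟨1 + N * C4 * C5 / c, n4 + (n1 + n2), by
    have : 0 ≤ N * C4 * C5 / c := by positivity
    linarith, ?_⟩
  intro x w hxw hx
  have e1 : (1 : ℝ) ≤ 1 + ‖x‖ := by linarith [norm_nonneg x]
  have e1' : (0 : ℝ) < 1 + ‖x‖ := by linarith
  set δ : ℝ := c / (C5 * (1 + ‖x‖) ^ (n1 + n2)) with hδ
  have hden : 0 < C5 * (1 + ‖x‖) ^ (n1 + n2) := by positivity
  have hδ0 : 0 < δ := div_pos hc hden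
  have key : ∀ (g g' : MvPolynomial (Fin m) ℂ) (C : ℝ) (n : ℕ), G = g * g' → 0 ≤ C → C ≤ C5 →
      n ≤ n1 + n2 → ‖eval x g'‖ ≤ C * (1 + ‖x‖) ^ n → δ ≤ ‖eval x g‖ := by
    intro g g' C n hgg hC hCC hnn hg'
    rw [hδ, div_le_iff₀ hden]
    calc c ≤ ‖eval x G‖ := hx
      _ = ‖eval x g‖ * ‖eval x g'‖ := by rw [hgg, map_mul, norm_mul]
      _ ≤ ‖eval x g‖ * (C5 * (1 + ‖x‖) ^ (n1 + n2)) := by
          refine mul_le_mul_of_nonneg_left (hg'.trans ?_) (norm_nonneg _)
          exact mul_le_mul hCC (pow_le_pow_right₀ e1 hnn) (by positivity) (by positivity)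
  have hδ1 : δ ≤ ‖eval x (A.coeff 0)‖ :=
    key _ G1 C1 n1 hG1 hC1 (by linarith) (by omega) (H1 x)
  have hδ2 : δ ≤ ‖eval x (A.coeff N)‖ :=
    key _ G2 C2 n2 hG2 hC2 (by linarith) (by omega) (H2 x)
  -- the relation
  set B : MvPolynomial (Fin m ⊕ κ) ℂ := ∑ b ∈ Finset.range (N + 1),
    rename Sum.inl (A.coeff b) * X (Sum.inr i) ^ b with hB
  have hB0 : aeval (Sum.elim ζ f) B = 0 := by
    rw [hB, map_sum]
    rw [Polynomial.eval_eq_sum_range' (n := N + 1)] at hAf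
    · rw [← hAf]
      refine Finset.sum_congr rfl fun b _ => ?_
      rw [map_mul, map_pow, aeval_rename, aeval_X, Sum.elim_comp_inl, Sum.elim_inr,
        Polynomial.coeff_map]
      rfl
    · have := Polynomial.natDegree_map_le
        (f := (aeval ζ : MvPolynomial (Fin m) ℂ →ₐ[ℂ] K).toRingHom) (p := A)
      omega
  have hrel : ∑ b ∈ Finset.range (N + 1), eval x (A.coeff b) * w i ^ b = 0 := by
    have h1 := hxw B hB0
    rw [hB, map_sum] at h1
    rw [← h1]
    refine Finset.sum_congr rfl fun b _ => ?_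
    rw [map_mul, map_pow, eval_rename, eval_X, Sum.elim_comp_inl, Sum.elim_inr]
  obtain ⟨hw, hlog⟩ := bds N (fun b => eval x (A.coeff b)) (w i) (C4 * (1 + ‖x‖) ^ n4) δ hδ0
    (by positivity) (fun b => H4 b x) hδ2 hδ1 hrel
  refine ⟨hw, hlog.trans (Real.log_le_log (by positivity) ?_)⟩
  have e5 : N * (C4 * (1 + ‖x‖) ^ n4) / δ = N * C4 * C5 / c * (1 + ‖x‖) ^ (n4 + (n1 + n2)) := by
    rw [hδ]
    field_simp
    ring
  rw [e5, add_mul, one_mul]
  have e6 : (1 : ℝ) ≤ (1 + ‖x‖) ^ (n4 + (n1 + n2)) := one_le_pow₀ e1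
  linarith

/-- a linear function grows faster than a logarithm -/
theorem logGrow (a b A ε : ℝ) (hA : 0 < A) (hε : 0 < ε) :
    ∀ᶠ T : ℝ in atTop, 8 * (6 * (a + b * Real.log (A * T)) + 10) < ε * T / 2 := by
  have h1 : (fun T : ℝ => Real.log (A * T)) =o[atTop] fun T : ℝ => A * T :=
    Real.isLittleO_log_id_atTop.comp_tendsto (tendsto_id.const_mul_atTop hA)
  have h2 : (fun T : ℝ => Real.log (A * T)) =o[atTop] fun T : ℝ => T :=
    h1.trans_isBigO (Asymptotics.isBigO_const_mul_self A _ _)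
  have h3 : (fun T : ℝ => 8 * (6 * (a + b * Real.log (A * T)) + 10)) =o[atTop] fun T : ℝ => T := by
    have e1 : (fun T : ℝ => 8 * (6 * (a + b * Real.log (A * T)) + 10)) =
        fun T : ℝ => (48 * a + 80) + 48 * b * Real.log (A * T) := by
      funext T
      ring
    rw [e1]
    exact (Asymptotics.isLittleO_const_id_atTop _).add (h2.const_mul_left _)
  have h4 := h3.def (show (0 : ℝ) < ε / 4 by positivity)
  filter_upwards [h4, eventually_gt_atTop (0 : ℝ)] with T hT hT0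
  rw [Real.norm_of_nonneg hT0.le] at hT
  have h5 := (le_abs_self _).trans hT
  nlinarith

/-- **job BM** -/
theorem bm (h : S_sheet) : S_bm := by
  classical
  intro m K _ _ ζ y Q hζ hy hy0 hQ
  set f : Fin m ⊕ Q → K := Sum.elim y (fun k : Q => (k : K)) with hf
  have hfa : ∀ k, Al (Set.range ζ) (f k) := by
    rintro (i | k)
    · exact hy i
    · exact hQ k k.2
  obtain ⟨H, hH, hex, hsheet, -⟩ := h m K ζ (Fin m ⊕ Q) f hζ hfa
  choose g hg hgrow using fun i : Fin m => growAlg ζ f (Sum.inl i) hζ (hfa (Sum.inl i)) (hy0 i)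
  set G : MvPolynomial (Fin m) ℂ := H * ∏ i, g i with hGdef
  have hG : G ≠ 0 := mul_ne_zero hH (Finset.prod_ne_zero_iff.2 fun i _ => hg i)
  have hgG : ∀ i, g i ∣ G := fun i =>
    (Finset.dvd_prod_of_mem g (Finset.mem_univ i)).trans (dvd_mul_left _ _)
  obtain ⟨ω, ε, T₀, c, hε, hT₀, hc, hgr⟩ := growth G hG
  choose D k hD hDk using fun i => hgrow i G (hgG i) c hc
  -- the size of the points
  set A : ℝ := 1 + ‖(fun l => 2 * Real.pi * Complex.I * (ω l : ℂ) : Fin m → ℂ)‖ + ε with hAdef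
  have hA : 0 < A := by positivity
  have hbig := logGrow (∑ i, Real.log (D i)) (∑ i, (k i : ℝ)) A ε hA hε
  obtain ⟨n, hn1, hn2⟩ := ((tendsto_natCast_atTop_atTop (R := ℝ)).eventually
    (hbig.and (eventually_ge_atTop T₀))).exists
  set T : ℝ := (n : ℝ) with hT
  have hT1 : 1 ≤ T := hT₀.trans hn2
  have hT0 : 0 < T := by linarith
  set p : Fin m → ℂ := fun l => 2 * Real.pi * Complex.I * ((T : ℂ) * (ω l : ℂ)) with hp
  set ρ : ℝ := ε * T with hρ
  have hρ0 : 0 < ρ := mul_pos hε hT0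
  have hGx : ∀ x ∈ ball p ρ, c ≤ ‖eval x G‖ := hgr T hn2
  have hHx : ∀ x ∈ ball p ρ, eval x H ≠ 0 := by
    intro x hx h0
    have h1 := hGx x hx
    rw [hGdef, map_mul, h0, zero_mul, norm_zero] at h1
    linarith
  have hpb : p ∈ ball p ρ := mem_ball_self hρ0
  obtain ⟨q₀, hq₀⟩ := hex p (hHx p hpb)
  obtain ⟨q, hqd, -, hq⟩ := hsheet (Fin m → ℂ) (ball p ρ) (fun u => u) isOpen_ball
    (convex_ball p ρ) differentiableOn_id hHx p hpb q₀ hq₀
  have hnorm : ∀ x ∈ ball p ρ, 1 + ‖x‖ ≤ A * T := by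
    intro x hx
    rw [mem_ball, dist_eq_norm] at hx
    have h1 : ‖p‖ = T * ‖(fun l => 2 * Real.pi * Complex.I * (ω l : ℂ) : Fin m → ℂ)‖ := by
      have : p = (T : ℂ) • (fun l => 2 * Real.pi * Complex.I * (ω l : ℂ) : Fin m → ℂ) := by
        funext l
        simp only [hp, Pi.smul_apply, smul_eq_mul]
        ring
      rw [this, norm_smul, Complex.norm_real, Real.norm_of_nonneg hT0.le]
    have h2 : ‖x‖ ≤ ‖x - p‖ + ‖p‖ := by
      have := norm_add_le (x - p) p
      rwa [sub_add_cancel] at this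
    rw [h1] at h2
    rw [hAdef, hρ] at *
    nlinarith
  have hbd : ∀ x ∈ ball p ρ, ∀ i, q x (Sum.inl i) ≠ 0 ∧ |Real.log ‖q x (Sum.inl i)‖| ≤
      ∑ i, Real.log (D i) + (∑ i, (k i : ℝ)) * Real.log (A * T) := by
    intro x hx i
    obtain ⟨h1, h2⟩ := hDk i x (q x) (hq x hx) (hGx x hx)
    refine ⟨h1, h2.trans ?_⟩
    have e1 : (1 : ℝ) ≤ 1 + ‖x‖ := by linarith [norm_nonneg x]
    have e2 : 0 < 1 + ‖x‖ := by linarith
    rw [Real.log_mul (by linarith [hD i]) (by positivity), Real.log_pow]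
    have e3 : Real.log (D i) ≤ ∑ i, Real.log (D i) :=
      Finset.single_le_sum (f := fun i => Real.log (D i)) (fun i _ => Real.log_nonneg (hD i))
        (Finset.mem_univ i)
    have e4 : (k i : ℝ) ≤ ∑ i, (k i : ℝ) :=
      Finset.single_le_sum (f := fun i => (k i : ℝ)) (fun i _ => Nat.cast_nonneg _)
        (Finset.mem_univ i)
    have e5 : Real.log (1 + ‖x‖) ≤ Real.log (A * T) := Real.log_le_log e2 (hnorm x hx)
    have e6 : 0 ≤ Real.log (1 + ‖x‖) := Real.log_nonneg e1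
    have e7 : (k i : ℝ) * Real.log (1 + ‖x‖) ≤ (∑ i, (k i : ℝ)) * Real.log (A * T) :=
      mul_le_mul e4 e5 e6 (Finset.sum_nonneg fun i _ => Nat.cast_nonneg _)
    linarith
  set B : ℝ := ∑ i, Real.log (D i) + (∑ i, (k i : ℝ)) * Real.log (A * T) with hB
  have hB0 : 0 ≤ B := by
    have h1 : 0 ≤ ∑ i, Real.log (D i) := Finset.sum_nonneg fun i _ => Real.log_nonneg (hD i)
    have h2 : 0 ≤ ∑ i, (k i : ℝ) := Finset.sum_nonneg fun i _ => Nat.cast_nonneg _
    have h3 : 0 ≤ Real.log (A * T) := by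
      apply Real.log_nonneg
      have := hnorm p hpb
      linarith [norm_nonneg p]
    have := mul_nonneg h2 h3
    linarith
  -- the logarithms
  have hex2 : ∀ i : Fin m, ∃ l : (Fin m → ℂ) → ℂ, DifferentiableOn ℂ l (ball p ρ) ∧
      (∀ u ∈ ball p ρ, Complex.exp (l u) = q u (Sum.inl i)) ∧ |(l p).im| ≤ Real.pi := fun i =>
    Pool.Agent.Q177.EG.log m p ρ (fun u => q u (Sum.inl i)) hρ0
      (differentiableOn_pi.1 hqd (Sum.inl i)) (fun u hu => (hbd u hu i).1)
  choose l hld hle hlc using hex2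
  have hre : ∀ i, ∀ u ∈ ball p ρ, |(l i u).re| ≤ B := by
    intro i u hu
    have e1 : (l i u).re = Real.log ‖q u (Sum.inl i)‖ := by
      rw [← hle i u hu, Complex.norm_exp, Real.log_exp]
    rw [e1]
    exact (hbd u hu i).2
  have hbd2 : ∀ i, ∀ u ∈ ball p (ρ / 2), ‖l i u‖ ≤ 6 * B + 10 := fun i =>
    Pool.Agent.Q177.EG.bc m p ρ B (l i) hρ0 hB0 (hld i) (hre i) (hlc i)
  have hsub : ball p (ρ / 2) ⊆ ball p ρ := ball_subset_ball (by linarith)
  obtain ⟨u, hu, hfix⟩ := Pool.Agent.Q252.EG.fix m p (ρ / 2) (6 * B + 10) (fun u i => l i u)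
    (by linarith) (differentiableOn_pi.2 fun i => (hld i).mono hsub)
    (fun u hu => (pi_norm_le_iff_of_nonneg (by linarith)).2 fun i => hbd2 i u hu) (by
      rw [hρ, hB]
      exact hn1)
  have hu' := hsub hu
  have hexp : ∀ i, Complex.exp (u i) = q u (Sum.inl i) := by
    intro i
    have e1 : u i = 2 * Real.pi * Complex.I * ((T : ℂ) * (ω i : ℂ)) + l i u := by
      have := congrFun hfix i
      simpa only [Pi.add_apply, hp] using this
    have e2 : Complex.exp (2 * Real.pi * Complex.I * ((T : ℂ) * (ω i : ℂ))) = 1 := by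
      have := Complex.exp_int_mul_two_pi_mul_I ((n : ℤ) * ω i)
      rw [← this]
      congr 1
      rw [hT]
      push_cast
      ring
    rw [e1, Complex.exp_add, e2, one_mul, hle i u hu']
  refine ⟨u, fun k => if hk : k ∈ Q then q u (Sum.inr ⟨k, hk⟩) else 0, ?_⟩
  intro g' hg'
  have h1 := hq u hu' (rename (Sum.elim (Sum.elim Sum.inl (fun i => Sum.inr (Sum.inl i)))
    (fun k : Q => Sum.inr (Sum.inr k))) g') (by
      rw [aeval_rename]
      rw [← hg']
      congr 1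
      congr 1
      funext o
      rcases o with (i | i) | k <;> rfl)
  rw [eval_rename] at h1
  rw [← h1]
  congr 1
  congr 1
  funext o
  rcases o with (i | i) | k
  · rfl
  · exact hexp i
  · simp only [Sum.elim_inr, Function.comp_apply]
    rw [dif_pos k.2]

end Pool.Agent.H860.EX
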