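import Pool.Agent.H664.EX.Stm2
import Pool.Graph.R_pool_sql_team_seeded_3997aac3.Q72.EG.Tr

/-! Project EX, job ROTTR (helper860): rotundity of translates. -/

set_option autoImplicit false

namespace Pool.Agent.H860.EX

open MvPolynomial Pool.Agent.Y563.SE Pool.Agent.Q72.EG Pool.Agent.H664.EX

theorem act_trs {n : ℕ} (M : Matrix (Fin n) (Fin n) ℤ) (V : Set (Fin n ⊕ Fin n → ℂ))
    (c : Fin n ⊕ Fin n → ℂ) :
    Pool.Agent.H664.EX.act M '' (Trs c V) =
      Trs (Pool.Agent.H664.EX.act M c) (Pool.Agent.H664.EX.act M '' V) := by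
  have key : ∀ u : Fin n ⊕ Fin n → ℂ, Pool.Agent.H664.EX.act M
      (Sum.elim (fun i => u (Sum.inl i) + c (Sum.inl i)) (fun i => c (Sum.inr i) * u (Sum.inr i))) =
      Sum.elim (fun i => Pool.Agent.H664.EX.act M u (Sum.inl i) +
          Pool.Agent.H664.EX.act M c (Sum.inl i))
        (fun i => Pool.Agent.H664.EX.act M c (Sum.inr i) *
          Pool.Agent.H664.EX.act M u (Sum.inr i)) := by
    intro u
    funext s
    rcases s with s | s
    · simp only [Pool.Agent.H664.EX.act, Sum.elim_inl, mul_add, Finset.sum_add_distrib]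
    · simp only [Pool.Agent.H664.EX.act, Sum.elim_inr, mul_zpow, Finset.prod_mul_distrib]
  ext p
  constructor
  · rintro ⟨_, ⟨u, hu, rfl⟩, rfl⟩
    exact ⟨Pool.Agent.H664.EX.act M u, ⟨u, hu, rfl⟩, key u⟩
  · rintro ⟨_, ⟨u, hu, rfl⟩, rfl⟩
    exact ⟨_, ⟨u, hu, rfl⟩, key u⟩

theorem rottr : S_rottr := by
  intro n V c hc h M
  obtain ⟨J, hJ, hi⟩ := h M
  refine ⟨J, hJ, ?_⟩
  rw [act_trs]
  refine indep_trs (fun i => ?_) hi
  have h1 : ∏ j, c (Sum.inr j) ^ M i j ≠ 0 :=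
    Finset.prod_ne_zero_iff.2 fun j _ => zpow_ne_zero _ (hc j)
  simpa only [Pool.Agent.H664.EX.act, Sum.elim_inr] using h1

end Pool.Agent.H860.EX
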